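import Pool.Agent.V11219.SetTietze

/-!
The Tychonoff plank is not set-self-Tietze.
-/

namespace Pool.Agent.Results.MP_231ef3_gt.PlankNotSetSelfTietze

open Set Topology Ordinal Pool.Agent.V11219.SetTietze

/-- **The Tychonoff plank `[0, ω₁] × [0, ω]` is not set-self-Tietze.** -/
theorem result : ¬ SetSelfTietze (Set.Iic (ω₁ : Ordinal.{0}) × Set.Iic (ω : Ordinal.{0})) := by
  have hc : CompactSpace (Set.Iic (ω : Ordinal.{0})) := by
    rw [← isCompact_iff_compactSpace, ← Set.Icc_bot]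
    exact isCompact_Icc
  have hinf : Infinite (Set.Iic (ω : Ordinal.{0})) := by
    refine Infinite.of_injective (fun n : ℕ => ⟨(n : Ordinal), (natCast_lt_omega0 n).le⟩) ?_
    intro m n h
    have := congrArg Subtype.val h
    simpa using this
  refine not_setSelfTietze_prod_of_infinite ⟨ω₁, Set.mem_Iic.2 le_rfl⟩ ?_
  intro V hV
  have h1 : ∀ n, ∃ b : Ordinal.{0}, b < ω₁ ∧ ∀ p : Set.Iic (ω₁ : Ordinal.{0}), b < p.1 → p ∈ V n := by
    intro n
    obtain ⟨N, hN, hNV⟩ := mem_nhds_subtype _ _ _ |>.1 (hV n)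
    obtain ⟨l, hl, hl'⟩ := exists_Ioc_subset_of_mem_nhds hN ⟨0, omega_pos 1⟩
    exact ⟨l, hl, fun p hp => hNV (hl' ⟨hp, p.2⟩)⟩
  choose b hb hbV using h1
  have h2 : (⨆ n, b n) < ω₁ := Ordinal.iSup_lt_omega_one hb
  have h3 : Order.succ (⨆ n, b n) < ω₁ := (Cardinal.isSuccLimit_omega 1).succ_lt h2
  refine ⟨⟨Order.succ (⨆ n, b n), h3.le⟩, ?_, ?_⟩
  · intro h
    have := congrArg Subtype.val h
    exact h3.ne this
  · intro n
    refine hbV n _ ?_
    exact lt_of_le_of_lt (Ordinal.le_iSup b n) (Order.lt_succ _)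

end Pool.Agent.Results.MP_231ef3_gt.PlankNotSetSelfTietze
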